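import Pool.Agent.Helper29.T4.Pat
import Pool.Agent.Helper25.T5.Gen
import Pool.Agent.Helper42.T5.Pr

/-!
# T5b: patterns of hits with outer keys

A hit has main coordinates `x y f`, `x' y f` (`f : ι`) on the two sides and outer keys `o y`, `o' y`
(the vectors of the extra families).  From many hits one can take many hits for which every main
coordinate and both outer keys are constant or pairwise distinct.
-/

set_option autoImplicit false

namespace Pool.Agent.Helper94.T5b

open Finset Pool.Agent.Helper29.T4 Pool.Agent.Helper42.T5.Pr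

variable {H ι α ε ε' κ : Type*}

/-- constant on `T` -/
def Cst (g : H → α) (T : Finset H) : Prop := ∀ y ∈ T, ∀ z ∈ T, g y = g z

theorem Cst.mono {g : H → α} {S T : Finset H} (h : Cst g T) (hST : S ⊆ T) : Cst g S :=
  fun y hy z hz => h y (hST hy) z (hST hz)

/-- The pattern of a family of hits: `C`, `C'` are the constant main coordinates of the two sides
(the others are pairwise distinct); `s`, `s'` tell whether the outer keys are pairwise distinct
(`true`) or constant (`false`). -/
structure PatE (x x' : H → ι → α) (o : H → ε) (o' : H → ε') (C C' : Finset ι) (s s' : Bool)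
    (T : Finset H) : Prop where
  cl : ∀ f ∈ C, Cst (fun y => x y f) T
  cr : ∀ f ∈ C', Cst (fun y => x' y f) T
  dl : ∀ f ∉ C, Set.InjOn (fun y => x y f) (T : Set H)
  dr : ∀ f ∉ C', Set.InjOn (fun y => x' y f) (T : Set H)
  ocl : s = false → Cst o T
  odl : s = true → Set.InjOn o (T : Set H)
  ocr : s' = false → Cst o' T
  odr : s' = true → Set.InjOn o' (T : Set H)

variable {x x' : H → ι → α} {o : H → ε} {o' : H → ε'} {C C' : Finset ι} {s s' : Bool}
  {S T : Finset H}

theorem PatE.mono (h : PatE x x' o o' C C' s s' T) (hST : S ⊆ T) :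
    PatE x x' o o' C C' s s' S where
  cl f hf := (h.cl f hf).mono hST
  cr f hf := (h.cr f hf).mono hST
  dl f hf := (h.dl f hf).mono (Finset.coe_subset.mpr hST)
  dr f hf := (h.dr f hf).mono (Finset.coe_subset.mpr hST)
  ocl hs := (h.ocl hs).mono hST
  odl hs := (h.odl hs).mono (Finset.coe_subset.mpr hST)
  ocr hs := (h.ocr hs).mono hST
  odr hs := (h.odr hs).mono (Finset.coe_subset.mpr hST)

theorem PatE.swap (h : PatE x x' o o' C C' s s' T) : PatE x' x o' o C' C s' s T where
  cl := h.cr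
  cr := h.cl
  dl := h.dr
  dr := h.dl
  ocl := h.ocr
  odl := h.odr
  ocr := h.ocl
  odr := h.odl

/-- **Extraction.** -/
theorem exists_PatE [Fintype ι] (x x' : H → ι → α) (o : H → ε) (o' : H → ε') (T : Finset H)
    (k : ℕ) (hk : 1 ≤ k) (hT : k ^ 2 ^ (2 * Fintype.card ι + 2) ≤ T.card) :
    ∃ C C' : Finset ι, ∃ s s' : Bool, ∃ T' ⊆ T, T'.card = k ∧
      PatE x x' o o' C C' s s' T' := by
  classical
  obtain ⟨T', hT', hc, h⟩ := exists_pattern (β := α ⊕ ε ⊕ ε')
    (Finset.univ : Finset ((Bool × ι) ⊕ Bool))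
    (fun i (y : H) => match i with
      | Sum.inl (true, f) => Sum.inl (x y f)
      | Sum.inl (false, f) => Sum.inl (x' y f)
      | Sum.inr true => Sum.inr (Sum.inl (o y))
      | Sum.inr false => Sum.inr (Sum.inr (o' y))) k hk T (by
      refine le_trans (le_of_eq ?_) hT
      congr 2
      rw [Finset.card_univ, Fintype.card_sum, Fintype.card_prod, Fintype.card_bool])
  have hl : ∀ f, Cst (fun y => x y f) T' ∨ Set.InjOn (fun y => x y f) (T' : Set H) := by
    intro f
    rcases h (Sum.inl (true, f)) (Finset.mem_univ _) with h1 | h1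
    · exact Or.inl fun y hy z hz => Sum.inl_injective (h1 y hy z hz)
    · exact Or.inr fun y hy z hz hyz => h1 hy hz (congrArg Sum.inl hyz)
  have hr : ∀ f, Cst (fun y => x' y f) T' ∨ Set.InjOn (fun y => x' y f) (T' : Set H) := by
    intro f
    rcases h (Sum.inl (false, f)) (Finset.mem_univ _) with h1 | h1
    · exact Or.inl fun y hy z hz => Sum.inl_injective (h1 y hy z hz)
    · exact Or.inr fun y hy z hz hyz => h1 hy hz (congrArg Sum.inl hyz)
  have hol : Cst o T' ∨ Set.InjOn o (T' : Set H) := by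
    rcases h (Sum.inr true) (Finset.mem_univ _) with h1 | h1
    · exact Or.inl fun y hy z hz => Sum.inl_injective (Sum.inr_injective (h1 y hy z hz))
    · exact Or.inr fun y hy z hz hyz => h1 hy hz (congrArg (fun t => Sum.inr (Sum.inl t)) hyz)
  have hor : Cst o' T' ∨ Set.InjOn o' (T' : Set H) := by
    rcases h (Sum.inr false) (Finset.mem_univ _) with h1 | h1
    · exact Or.inl fun y hy z hz => Sum.inr_injective (Sum.inr_injective (h1 y hy z hz))
    · exact Or.inr fun y hy z hz hyz => h1 hy hz (congrArg (fun t => Sum.inr (Sum.inr t)) hyz)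
  refine ⟨univ.filter (fun f => Cst (fun y => x y f) T'),
    univ.filter (fun f => Cst (fun y => x' y f) T'), !decide (Cst o T'), !decide (Cst o' T'),
    T', hT', hc, ?_, ?_, ?_, ?_, ?_, ?_, ?_, ?_⟩
  · intro f hf
    exact (Finset.mem_filter.mp hf).2
  · intro f hf
    exact (Finset.mem_filter.mp hf).2
  · intro f hf
    rcases hl f with h1 | h1
    · exact absurd ((Finset.mem_filter (a := f)).mpr ⟨Finset.mem_univ f, h1⟩) hf
    · exact h1
  · intro f hf
    rcases hr f with h1 | h1
    · exact absurd ((Finset.mem_filter (a := f)).mpr ⟨Finset.mem_univ f, h1⟩) hf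
    · exact h1
  · intro hs
    simpa using hs
  · intro hs
    rcases hol with h1 | h1
    · simp [h1] at hs
    · exact h1
  · intro hs
    simpa using hs
  · intro hs
    rcases hor with h1 | h1
    · simp [h1] at hs
    · exact h1

/-- The three kinds of patterns: some main coordinate distinct; all main coordinates constant and
an outer key distinct; everything constant. -/
theorem PatE.cases [Fintype ι] (h : PatE x x' o o' C C' s s' T) :
    ((∃ f, Set.InjOn (fun y => x y f) (T : Set H)) ∨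
        ∃ f, Set.InjOn (fun y => x' y f) (T : Set H)) ∨
      (Cst x T ∧ Cst x' T ∧ (Set.InjOn o (T : Set H) ∨ Set.InjOn o' (T : Set H))) ∨
      (Cst x T ∧ Cst x' T ∧ Cst o T ∧ Cst o' T) := by
  classical
  by_cases hC : ∀ f, f ∈ C
  · by_cases hC' : ∀ f, f ∈ C'
    · have h1 : Cst x T := fun y hy z hz => funext fun f => h.cl f (hC f) y hy z hz
      have h2 : Cst x' T := fun y hy z hz => funext fun f => h.cr f (hC' f) y hy z hz
      rcases Bool.eq_false_or_eq_true s with hs | hs
      · exact Or.inr (Or.inl ⟨h1, h2, Or.inl (h.odl hs)⟩)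
      · rcases Bool.eq_false_or_eq_true s' with hs' | hs'
        · exact Or.inr (Or.inl ⟨h1, h2, Or.inr (h.odr hs')⟩)
        · exact Or.inr (Or.inr ⟨h1, h2, h.ocl hs, h.ocr hs'⟩)
    · push Not at hC'
      obtain ⟨f, hf⟩ := hC'
      exact Or.inl (Or.inr ⟨f, h.dr f hf⟩)
  · push Not at hC
    obtain ⟨f, hf⟩ := hC
    exact Or.inl (Or.inl ⟨f, h.dl f hf⟩)

/-- If hits with the same main coordinates and the same outer keys are at most `R` many, a family
of more than `R` hits with a pattern is not everywhere constant. -/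
theorem PatE.ne_const {R : ℕ} (hR : ∀ S ⊆ T, Cst x S → Cst x' S → Cst o S → Cst o' S →
    S.card ≤ R) (hT : R < T.card) : ¬ (Cst x T ∧ Cst x' T ∧ Cst o T ∧ Cst o' T) := by
  rintro ⟨h1, h2, h3, h4⟩
  exact absurd (hR T subset_rfl h1 h2 h3 h4) (Nat.not_le.mpr hT)

open Pool.Agent.Helper25.T5 in
/-- A family with a pattern in which some main coordinate is distinct, in the form of helper25's
patterns. -/
theorem PatE.toPat [DecidableEq (Hit ι)] {x x' : H → ι → ℕ}
    (h : PatE x x' o o' C C' s s' T) (hm : H → Hit ι) (h1 : ∀ y ∈ T, hx1 (hm y) = x y)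
    (h2 : ∀ y ∈ T, hx2 (hm y) = x' y)
    (hne : (∃ f, f ∉ C) ∨ ∃ f, f ∉ C') :
    Set.InjOn hm (T : Set H) ∧ (T.image hm).card = T.card ∧ Pat C C' (T.image hm) := by
  have hinj : Set.InjOn hm (T : Set H) := by
    intro y hy z hz hyz
    rcases hne with ⟨f, hf⟩ | ⟨f, hf⟩
    · refine h.dl f hf hy hz ?_
      show x y f = x z f
      rw [← h1 y hy, ← h1 z hz, hyz]
    · refine h.dr f hf hy hz ?_
      show x' y f = x' z f
      rw [← h2 y hy, ← h2 z hz, hyz]
  refine ⟨hinj, Finset.card_image_of_injOn hinj, ?_, ?_, ?_, ?_⟩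
  · intro a ha b hb f hf
    obtain ⟨y, hy, rfl⟩ := Finset.mem_image.mp ha
    obtain ⟨z, hz, rfl⟩ := Finset.mem_image.mp hb
    rw [h1 y hy, h1 z hz]
    exact h.cl f hf y hy z hz
  · intro a ha b hb f hf
    obtain ⟨y, hy, rfl⟩ := Finset.mem_image.mp ha
    obtain ⟨z, hz, rfl⟩ := Finset.mem_image.mp hb
    rw [h2 y hy, h2 z hz]
    exact h.cr f hf y hy z hz
  · intro f hf a ha b hb hab
    obtain ⟨y, hy, rfl⟩ := Finset.mem_image.mp (Finset.mem_coe.mp ha)
    obtain ⟨z, hz, rfl⟩ := Finset.mem_image.mp (Finset.mem_coe.mp hb)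
    have hab' : hx1 (hm y) f = hx1 (hm z) f := hab
    rw [h1 y hy, h1 z hz] at hab'
    rw [h.dl f hf hy hz hab']
  · intro f hf a ha b hb hab
    obtain ⟨y, hy, rfl⟩ := Finset.mem_image.mp (Finset.mem_coe.mp ha)
    obtain ⟨z, hz, rfl⟩ := Finset.mem_image.mp (Finset.mem_coe.mp hb)
    have hab' : hx2 (hm y) f = hx2 (hm z) f := hab
    rw [h2 y hy, h2 z hz] at hab'
    rw [h.dr f hf hy hz hab']

/-- **Union bound over the patterns.** -/
theorem PrLe_PatE [Fintype ι] [DecidableEq κ] {M : κ → ℕ} {K : Finset κ}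
    (x x' : H → ι → α) (o : H → ε) (o' : H → ε') (T : (κ → ℕ) → Finset H) (m : ℕ)
    (δ : Finset ι → Finset ι → Bool → Bool → ℝ)
    (h : ∀ C C' s s', PrLe M K (fun w => ∃ T' ⊆ T w, T'.card = m + 1 ∧
      PatE x x' o o' C C' s s' T') (δ C C' s s')) :
    PrLe M K (fun w => (m + 1) ^ 2 ^ (2 * Fintype.card ι + 2) ≤ (T w).card)
      (∑ C, ∑ C', ∑ s, ∑ s', δ C C' s s') := by
  classical
  have h1 := PrLe_exists (M := M) (K := K)
    (Finset.univ : Finset (Finset ι × Finset ι × Bool × Bool))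
    (B := fun c w => ∃ T' ⊆ T w, T'.card = m + 1 ∧
      PatE x x' o o' c.1 c.2.1 c.2.2.1 c.2.2.2 T')
    (ε := fun c => δ c.1 c.2.1 c.2.2.1 c.2.2.2) (fun c _ => h _ _ _ _)
  refine PrLe_mono ?_ (le_of_eq ?_) h1
  · intro r _ hr
    obtain ⟨C, C', s, s', T', hT', hc, hP⟩ := exists_PatE x x' o o' (T (ext K r)) (m + 1)
      (by omega) hr
    exact ⟨(C, C', s, s'), Finset.mem_univ _, T', hT', hc, hP⟩
  · rw [Fintype.sum_prod_type]
    refine Finset.sum_congr rfl fun C _ => ?_
    rw [Fintype.sum_prod_type]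
    refine Finset.sum_congr rfl fun C' _ => ?_
    rw [Fintype.sum_prod_type]

/-- The union bound with one number for all patterns. -/
theorem PrLe_PatE_one [Fintype ι] [DecidableEq κ] {M : κ → ℕ} {K : Finset κ}
    (x x' : H → ι → α) (o : H → ε) (o' : H → ε') (T : (κ → ℕ) → Finset H) (m : ℕ) (δ : ℝ)
    (h : ∀ C C' s s', PrLe M K (fun w => ∃ T' ⊆ T w, T'.card = m + 1 ∧
      PatE x x' o o' C C' s s' T') δ) :
    PrLe M K (fun w => (m + 1) ^ 2 ^ (2 * Fintype.card ι + 2) ≤ (T w).card)
      (4 ^ (Fintype.card ι + 1) * δ) := by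
  refine PrLe_mono (fun _ _ hr => hr) (le_of_eq ?_)
    (PrLe_PatE x x' o o' T m (fun _ _ _ _ => δ) h)
  simp only [Finset.sum_const, Finset.card_univ, Fintype.card_finset, Fintype.card_bool,
    nsmul_eq_mul]
  push_cast
  rw [pow_succ]
  have h4 : (4 : ℝ) ^ Fintype.card ι = 2 ^ Fintype.card ι * 2 ^ Fintype.card ι := by
    rw [← mul_pow]
    norm_num
  rw [h4]
  ring

end Pool.Agent.Helper94.T5b
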